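import Mathlib
import Pool.Agent.H541R3.ART.Irr

/-!
# The orders of the L-functions of quadratic characters in terms of zeta functions
-/

set_option autoImplicit false

namespace Pool.Agent.Q277.CR

open Pool.Agent.H541R3.ART

variable {G : Type} [Group G] [Finite G] {s₀ : ℂ} (A : ArtinData G s₀)

/-- The order as a natural number, and as a multiplicity. -/
theorem exists_order (H : Subgroup G) (ψ : H →* ℂˣ) :
    ∃ k : ℕ, meromorphicOrderAt (A.Lin H ψ) s₀ = ((k : ℕ) : WithTop ℤ) ∧
      ∑ᶠ h : H, theta A.ord h * (((ψ h)⁻¹ : ℂˣ) : ℂ) = (k : ℂ) * (Nat.card H : ℂ) := by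
  classical
  choose! m hm using fun χ (hχ : χ ∈ Irr G) => exists_mult hχ H ψ
  have h1 := A.order_Lin H ψ m hm
  have h2 := theta_mult A.ord H ψ m hm
  have h3 := A.hecke H ψ
  rw [h1] at h3
  have h4 : (0 : ℤ) ≤ ∑ χ ∈ irrF G, (m χ : ℤ) * A.ord χ := by exact_mod_cast h3
  obtain ⟨k, hk⟩ := Int.eq_ofNat_of_zero_le h4
  refine ⟨k, ?_, ?_⟩
  · rw [h1, hk]
    rfl
  · rw [h2, hk]
    push_cast
    ring

/-- If the orders of all zeta functions of intermediate fields are even, so are those of the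
L-functions of quadratic characters. -/
theorem even_of_zeta (h : ∀ H : Subgroup G, ∃ m : ℕ,
    meromorphicOrderAt (A.Lin H 1) s₀ = ((2 * m : ℕ) : WithTop ℤ)) (H : Subgroup G) (ψ : H →* ℂˣ)
    (hψ : ∀ x, ψ x * ψ x = 1) :
    ∃ m : ℕ, meromorphicOrderAt (A.Lin H ψ) s₀ = ((2 * m : ℕ) : WithTop ℤ) := by
  classical
  by_cases h1 : ψ = 1
  · rw [h1]
    exact h H
  have : Fintype H := Fintype.ofFinite H
  let N : Subgroup G := ψ.ker.map H.subtype
  have : Fintype N := Fintype.ofFinite N
  obtain ⟨k, hk1, hk2⟩ := exists_order A H ψ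
  obtain ⟨k0, hk01, hk02⟩ := exists_order A H 1
  obtain ⟨k', hk'1, hk'2⟩ := exists_order A N 1
  obtain ⟨m0, hm0⟩ := h H
  obtain ⟨m', hm'⟩ := h N
  have e0 : k0 = 2 * m0 := by
    rw [hk01] at hm0
    exact_mod_cast hm0
  have e' : k' = 2 * m' := by
    rw [hk'1] at hm'
    exact_mod_cast hm'
  rw [finsum_eq_sum_of_fintype] at hk2 hk02 hk'2
  simp only [MonoidHom.one_apply, inv_one, Units.val_one, mul_one] at hk02 hk'2
  -- the values of `ψ`
  have hval : ∀ x : H, (((ψ x)⁻¹ : ℂˣ) : ℂ) = if ψ x = 1 then 1 else -1 := by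
    intro x
    by_cases hx : ψ x = 1
    · rw [if_pos hx, hx, inv_one, Units.val_one]
    · rw [if_neg hx]
      have h2 : ((ψ x : ℂˣ) : ℂ) * ((ψ x : ℂˣ) : ℂ) = 1 := by
        rw [← Units.val_mul, hψ x, Units.val_one]
      have h3 : ((ψ x : ℂˣ) : ℂ) = 1 ∨ ((ψ x : ℂˣ) : ℂ) = -1 := mul_self_eq_one_iff.1 h2
      have h4 : ((ψ x : ℂˣ) : ℂ) = -1 := by
        rcases h3 with h3 | h3
        · exact absurd (Units.ext h3) hx
        · exact h3
      rw [Units.val_inv_eq_inv_val, h4]
      norm_num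
  -- the sum over the kernel
  have hker : ∑ x : N, theta A.ord (x : G) = ∑ x : H, if ψ x = 1 then theta A.ord (x : G) else 0 := by
    rw [← Finset.sum_filter]
    refine (Finset.sum_bij (fun (x : H) (hx : x ∈ Finset.univ.filter (fun x => ψ x = 1)) =>
      (⟨(x : G), Subgroup.mem_map_of_mem H.subtype ((Finset.mem_filter.1 hx).2)⟩ : N))
      ?_ ?_ ?_ ?_).symm
    · intro x hx
      exact Finset.mem_univ _
    · intro x hx y hy hxy
      exact Subtype.ext (congrArg (fun z : N => (z : G)) hxy)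
    · rintro ⟨z, hz⟩ _
      obtain ⟨x, hx, rfl⟩ := hz
      exact ⟨x, Finset.mem_filter.2 ⟨Finset.mem_univ _, hx⟩, rfl⟩
    · intro x hx
      rfl
  have hcard : (Nat.card H : ℂ) = 2 * (Nat.card N : ℂ) := by
    have h2 : Nat.card N = Nat.card ψ.ker :=
      Nat.card_congr (Subgroup.equivMapOfInjective _ _ H.subtype_injective).toEquiv.symm
    have h3 := Subgroup.card_eq_card_quotient_mul_card_subgroup ψ.ker
    have h4 : Nat.card (H ⧸ ψ.ker) = 2 := by
      rw [Nat.card_congr (QuotientGroup.quotientKerEquivRange ψ).toEquiv]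
      have h5 : ∃ x, ψ x ≠ 1 := by
        by_contra hcon
        push Not at hcon
        exact h1 (MonoidHom.ext hcon)
      obtain ⟨x, hx⟩ := h5
      have h6 : ∀ y, ψ y = 1 ∨ ψ y = ψ x := by
        intro y
        by_cases hy : ψ y = 1
        · exact Or.inl hy
        · right
          have hvx := hval x
          have hvy := hval y
          rw [if_neg hx] at hvx
          rw [if_neg hy, ← hvx] at hvy
          exact inv_injective (Units.ext hvy)
      have h7 : ψ.range = ({1, ψ x} : Set ℂˣ) := by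
        ext z
        constructor
        · rintro ⟨y, rfl⟩
          rcases h6 y with h8 | h8
          · rw [h8]; exact Or.inl rfl
          · rw [h8]; exact Or.inr rfl
        · rintro (rfl | rfl)
          · exact ⟨1, map_one ψ⟩
          · exact ⟨x, rfl⟩
      have h8 : Nat.card ψ.range = Nat.card (({1, ψ x} : Set ℂˣ)) := by
        have h9 : Nat.card ψ.range = Nat.card ((ψ.range : Set ℂˣ)) := rfl
        rw [h9, h7]
      rw [h8, Nat.card_coe_set_eq, Set.ncard_pair hx.symm]
    rw [h3, h4, h2]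
    push_cast
    ring
  have hN0 : (Nat.card N : ℂ) ≠ 0 := by exact_mod_cast Nat.card_pos.ne'
  -- the relation
  have hrel : (k : ℂ) + k0 = k' := by
    have h2 : ∑ x : H, theta A.ord (x : G) * (((ψ x)⁻¹ : ℂˣ) : ℂ) + ∑ x : H, theta A.ord (x : G) =
        2 * ∑ x : N, theta A.ord (x : G) := by
      rw [hker, ← Finset.sum_add_distrib, Finset.mul_sum]
      refine Finset.sum_congr rfl fun x _ => ?_
      rw [hval]
      by_cases hx : ψ x = 1
      · rw [if_pos hx, if_pos hx]
        ring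
      · rw [if_neg hx, if_neg hx]
        ring
    rw [hk2, hk02, hk'2, hcard] at h2
    have h3 : ((k : ℂ) + k0) * (2 * (Nat.card N : ℂ)) = k' * (2 * (Nat.card N : ℂ)) := by
      linear_combination h2
    exact mul_right_cancel₀ (mul_ne_zero two_ne_zero hN0) h3
  have hrel' : k + k0 = k' := by exact_mod_cast hrel
  refine ⟨m' - m0, ?_⟩
  rw [hk1]
  congr 1
  have : k = 2 * (m' - m0) := by omega
  exact_mod_cast this

end Pool.Agent.Q277.CR
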