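import Mathlib
import Pool.Agent.Q92.AR.Use
import Pool.Agent.Q277.CL.Main
import Pool.Agent.Q277.CR.Even

/-!
# The local criterion for the central values of Artin L-functions
-/

set_option autoImplicit false

namespace Pool.Agent.Q277.CR

open NumberField Pool.Agent.H541R3.ART Pool.Agent.Y788 Pool.Agent.Y788.V Pool.Agent.Q92.AR

theorem fixer_eq {K M : Type} [Field K] [NumberField K] [Field M] [NumberField M] [Algebra K M]
    (F : IntermediateField K M) : fixer K F M = F.fixingSubgroup := by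
  ext g
  rw [mem_fixer, IntermediateField.mem_fixingSubgroup_iff]
  constructor
  · intro h x hx
    exact h ⟨x, hx⟩
  · intro h x
    exact h _ x.2

theorem central_real (K M : Type) [Field K] [NumberField K] [Field M] [NumberField M]
    [Algebra K M] [IsGalois K M] (hC : Continued (K := K) M (1 / 2 : ℂ))
    (heven : ∀ F : IntermediateField K M, ∃ m : ℕ,
      meromorphicOrderAt (cont (dedekindZeta F)) (1 / 2 : ℂ) = ((2 * m : ℕ) : WithTop ℤ))
    (r : ℕ) (hr : meromorphicOrderAt (cont (dedekindZeta M)) (1 / 2 : ℂ) = (r : WithTop ℤ))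
    (hloc : ∀ p : ℕ, p.Prime → p ≤ r → p = 2 ∨ 5 ≤ r →
      (∃ m : ℕ, r < 2 * m ∧ RankGe p m (⊥ : Subgroup (res (M ≃ₐ[K] M)))) ∨
        Pool.Agent.Q277.CL.TrivC p r (res (M ≃ₐ[K] M))) :
    (∀ χ ∈ Irr (M ≃ₐ[K] M), (∃ n ∈ res (M ≃ₐ[K] M), χ n ≠ χ 1) →
      meromorphicOrderAt (cont (artinL M χ)) (1 / 2 : ℂ) = 0) ∧
    ((∀ χ ∈ Irr (M ≃ₐ[K] M), (∀ n ∈ res (M ≃ₐ[K] M), χ n = χ 1) → IsMonomialChar χ) →
      ∀ χ ∈ Irr (M ≃ₐ[K] M), 0 ≤ meromorphicOrderAt (cont (artinL M χ)) (1 / 2 : ℂ)) ∧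
    ∀ F : IntermediateField K M,
      meromorphicOrderAt (cont (dedekindZeta
        (F ⊓ IntermediateField.fixedField (res (M ≃ₐ[K] M)) : IntermediateField K M))) (1 / 2 : ℂ) =
      meromorphicOrderAt (cont (dedekindZeta F)) (1 / 2 : ℂ) := by
  have h0 : (0 : ℝ) < (1 / 2 : ℂ).re := by norm_num
  set A := ArtinData.ofExtension hC with hA
  have hlin : ∀ F : IntermediateField K M, meromorphicOrderAt (A.Lin F.fixingSubgroup 1) (1 / 2 : ℂ) =
      meromorphicOrderAt (cont (dedekindZeta F)) (1 / 2 : ℂ) := by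
    intro F
    rw [← lin_fixer (F := F) hC h0, fixer_eq F]
  have hz : ∀ H : Subgroup (M ≃ₐ[K] M), ∃ m : ℕ,
      meromorphicOrderAt (A.Lin H 1) (1 / 2 : ℂ) = ((2 * m : ℕ) : WithTop ℤ) := by
    intro H
    obtain ⟨m, hm⟩ := heven (IntermediateField.fixedField H)
    refine ⟨m, ?_⟩
    rw [← hm, ← hlin, IntermediateField.fixingSubgroup_fixedField]
  have hs : (starRingEnd ℂ) (1 / 2 : ℂ) = 1 / 2 := by
    rw [map_div₀, map_one, map_ofNat]
  obtain ⟨h1, h2, h3⟩ := Pool.Agent.Q277.CL.central_local hs A (reflects_ofExtension hC)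
    (even_of_zeta A hz) (r := r) ((lin_bot hC h0).trans hr) hloc
  refine ⟨h1, h2, fun F => ?_⟩
  rw [← hlin, ← hlin, ← h3 F.fixingSubgroup]
  have h4 := (IsGalois.intermediateFieldEquivSubgroup (F := K) (E := M)).map_inf F
    (IntermediateField.fixedField (res (M ≃ₐ[K] M)))
  have h5 : (F ⊓ IntermediateField.fixedField (res (M ≃ₐ[K] M))).fixingSubgroup =
      F.fixingSubgroup ⊔ (IntermediateField.fixedField (res (M ≃ₐ[K] M))).fixingSubgroup :=
    congrArg OrderDual.ofDual h4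
  rw [IntermediateField.fixingSubgroup_fixedField] at h5
  rw [h5]

end Pool.Agent.Q277.CR
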